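import Pool.Agent.U437.SS.Sub
import Pool.Agent.N825.FC.Fin

/-! Record gaps at functions of the sums of the `k`-subsets. -/

set_option autoImplicit false

namespace Pool.Agent.U437.SS

open Finset Filter
open Pool.Agent.N825.FC (Many crit)

/-- orthogonality -/
theorem orth (P : ℕ) [NeZero P] (r : ℕ) (z : Fin r → ZMod P) :
    ∑ k : Fin r → ZMod P, (ZMod.stdAddChar (∑ j, k j * z j) : ℂ) =
      if z = 0 then (P : ℂ) ^ r else 0 := by
  classical
  have h1 : ∀ k : Fin r → ZMod P, (ZMod.stdAddChar (∑ j, k j * z j) : ℂ) =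
      ∏ j, ZMod.stdAddChar (k j * z j) := fun k => char_sum _ _ _
  rw [sum_congr rfl fun k _ => h1 k]
  have h2 : ∑ k : Fin r → ZMod P, ∏ j, (ZMod.stdAddChar (k j * z j) : ℂ) =
      ∏ j, ∑ a : ZMod P, ZMod.stdAddChar (a * z j) := by
    rw [prod_univ_sum, Fintype.piFinset_univ]
  rw [h2]
  have h3 : ∀ j, ∑ a : ZMod P, (ZMod.stdAddChar (a * z j) : ℂ) = if z j = 0 then (P : ℂ) else 0 := by
    intro j
    rw [AddChar.sum_mulShift _ (ZMod.isPrimitive_stdAddChar P), ZMod.card]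
    split_ifs <;> simp
  rw [prod_congr rfl fun j _ => h3 j]
  split_ifs with h
  · subst h
    simp
  · obtain ⟨j, hj⟩ := Function.ne_iff.1 h
    exact prod_eq_zero (mem_univ j) (if_neg hj)

/-- Composition of an equidistributed family of vectors with a function. -/
theorem comp {ι : Type} (P : ℕ) [NeZero P] (r : ℕ) (S : Finset ι) (y : ι → Fin r → ZMod P)
    (η : ℝ) (hη : 0 ≤ η) (hy : ∀ k : Fin r → ZMod P, k ≠ 0 →
      ‖∑ i ∈ S, (ZMod.stdAddChar (∑ j, k j * y i j) : ℂ)‖ ≤ η * S.card)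
    (F : (Fin r → ZMod P) → ℂ) (hF : ∀ z, ‖F z‖ ≤ 1) (E : ℝ)
    (hE : ‖∑ z, F z‖ ≤ E * (P : ℝ) ^ r) :
    ‖∑ i ∈ S, F (y i)‖ ≤ S.card * (E + (P : ℝ) ^ r * η) := by
  classical
  have hP : (0 : ℝ) < P := by exact_mod_cast Nat.pos_of_ne_zero (NeZero.ne P)
  have h1 : ((P : ℂ) ^ r) * ∑ i ∈ S, F (y i) = ∑ k : Fin r → ZMod P,
      (∑ z, F z * ZMod.stdAddChar (-(∑ j, k j * z j))) *
        ∑ i ∈ S, (ZMod.stdAddChar (∑ j, k j * y i j) : ℂ) := by
    have h2 : ∀ k : Fin r → ZMod P, (∑ z, F z * ZMod.stdAddChar (-(∑ j, k j * z j))) *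
        ∑ i ∈ S, (ZMod.stdAddChar (∑ j, k j * y i j) : ℂ) =
        ∑ i ∈ S, ∑ z, F z * ZMod.stdAddChar (∑ j, k j * (y i - z) j) := by
      intro k
      rw [mul_sum]
      refine sum_congr rfl fun i _ => ?_
      rw [sum_mul]
      refine sum_congr rfl fun z _ => ?_
      rw [mul_assoc, ← AddChar.map_add_eq_mul]
      congr 2
      rw [← sub_eq_neg_add, ← sum_sub_distrib]
      refine sum_congr rfl fun j _ => ?_
      rw [Pi.sub_apply]
      ring
    rw [sum_congr rfl fun k _ => h2 k, sum_comm, mul_sum]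
    refine sum_congr rfl fun i _ => ?_
    rw [sum_comm]
    have h3 : ∀ z : Fin r → ZMod P, ∑ k : Fin r → ZMod P,
        F z * (ZMod.stdAddChar (∑ j, k j * (y i - z) j) : ℂ) =
        if z = y i then (P : ℂ) ^ r * F (y i) else 0 := by
      intro z
      rw [← mul_sum, orth]
      by_cases h4 : z = y i
      · rw [if_pos h4, if_pos (by rw [h4, sub_self]), h4, mul_comm]
      · rw [if_neg h4, if_neg (fun h5 => h4 (sub_eq_zero.1 h5).symm), mul_zero]
    rw [sum_congr rfl fun z _ => h3 z, sum_ite_eq' univ (y i), if_pos (mem_univ _)]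
  have hcardV : (Fintype.card (Fin r → ZMod P) : ℝ) = (P : ℝ) ^ r := by
    rw [Fintype.card_fun, ZMod.card, Fintype.card_fin]
    push_cast
    rfl
  have h2 : (P : ℝ) ^ r * ‖∑ i ∈ S, F (y i)‖ ≤
      (P : ℝ) ^ r * (S.card * (E + (P : ℝ) ^ r * η)) := by
    have h3 : (P : ℝ) ^ r * ‖∑ i ∈ S, F (y i)‖ = ‖((P : ℂ) ^ r) * ∑ i ∈ S, F (y i)‖ := by
      rw [norm_mul, norm_pow, Complex.norm_natCast]
    rw [h3, h1, ← add_sum_erase _ _ (mem_univ (0 : Fin r → ZMod P))]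
    refine (norm_add_le _ _).trans ?_
    have h4 : ‖(∑ z, F z * ZMod.stdAddChar (-(∑ j, (0 : Fin r → ZMod P) j * z j))) *
        ∑ i ∈ S, (ZMod.stdAddChar (∑ j, (0 : Fin r → ZMod P) j * y i j) : ℂ)‖ ≤
        (E * (P : ℝ) ^ r) * S.card := by
      simp only [Pi.zero_apply, zero_mul, sum_const_zero, neg_zero, AddChar.map_zero_eq_one, mul_one,
        sum_const, nsmul_eq_mul, norm_mul, Complex.norm_natCast]
      exact mul_le_mul_of_nonneg_right hE (Nat.cast_nonneg _)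
    have h5 : ‖∑ k ∈ univ.erase (0 : Fin r → ZMod P),
        (∑ z, F z * ZMod.stdAddChar (-(∑ j, k j * z j))) *
        ∑ i ∈ S, (ZMod.stdAddChar (∑ j, k j * y i j) : ℂ)‖ ≤
        (P : ℝ) ^ r * ((P : ℝ) ^ r * (η * S.card)) := by
      refine (norm_sum_le _ _).trans ?_
      calc _ ≤ ∑ _k ∈ univ.erase (0 : Fin r → ZMod P), (P : ℝ) ^ r * (η * S.card) := by
            refine sum_le_sum fun k hk => ?_
            rw [norm_mul]
            refine mul_le_mul ?_ (hy k (ne_of_mem_erase hk)) (norm_nonneg _) (by positivity)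
            refine (norm_sum_le _ _).trans ?_
            calc _ ≤ ∑ _z : Fin r → ZMod P, (1 : ℝ) := by
                  refine sum_le_sum fun z _ => ?_
                  rw [norm_mul, AddChar.norm_apply, mul_one]
                  exact hF z
              _ = (P : ℝ) ^ r := by rw [sum_const, card_univ, nsmul_eq_mul, mul_one, hcardV]
        _ = ((univ.erase (0 : Fin r → ZMod P)).card : ℝ) * ((P : ℝ) ^ r * (η * S.card)) := by
            rw [sum_const, nsmul_eq_mul]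
        _ ≤ (P : ℝ) ^ r * ((P : ℝ) ^ r * (η * S.card)) := by
            refine mul_le_mul_of_nonneg_right ?_ (by positivity)
            rw [← hcardV]
            have := card_le_card (erase_subset (0 : Fin r → ZMod P) univ)
            rw [card_univ] at this
            exact_mod_cast this
    calc _ ≤ (E * (P : ℝ) ^ r) * S.card + (P : ℝ) ^ r * ((P : ℝ) ^ r * (η * S.card)) :=
          add_le_add h4 h5
      _ = _ := by ring
  exact le_of_mul_le_mul_left h2 (by positivity)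

theorem ev_exp (A ε : ℝ) (hε : 0 < ε) :
    ∀ᶠ x : ℝ in atTop, x ^ A * Real.exp (-(x ^ ε / 16)) ≤ 1 := by
  have h1 := (isLittleO_rpow_exp_pos_mul_atTop (A / ε) (by norm_num : (0 : ℝ) < 1 / 16)).bound
    one_pos
  have h2 := (tendsto_rpow_atTop hε).eventually h1
  filter_upwards [h2, eventually_ge_atTop 1] with x hx hx1
  have hx0 : (0 : ℝ) < x := by linarith
  rw [← Real.rpow_mul hx0.le, mul_div_cancel₀ _ hε.ne', Real.norm_of_nonneg (by positivity),
    Real.norm_of_nonneg (by positivity), one_mul] at hx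
  rw [Real.exp_neg, ← div_eq_mul_inv, div_le_one (Real.exp_pos _)]
  refine hx.trans (le_of_eq ?_)
  congr 1
  ring

/-- **The general theorem.** -/
theorem general (r q : ℕ) (hq : 1 ≤ q) (ε : ℝ) (hε : 0 < ε) (hε1 : ε ≤ 1) :
    ∃ κ : ℝ, 0 < κ ∧ ∃ δ : ℝ, 0 < δ ∧ ∃ P₀ : ℝ, ∀ (P : ℕ) [Fact P.Prime], P₀ ≤ P →
    ∀ (ι : Type) (s : Finset ι) (d : ι → Fin r → ZMod P) (m k : ℕ), s.card ≤ P ^ r → 0 < m →
    4 * m ≤ s.card → k ≤ s.card →
    (∀ h : Fin r → ZMod P, h ≠ 0 → ∀ a, (s.filter fun i => ∑ j, h j * d i j = a).card ≤ m) →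
    (m : ℝ) ^ 2 * (P : ℝ) ^ (2 + ε) ≤ (k : ℝ) * ((s.card - k : ℕ) : ℝ) * s.card →
    ∀ Φ : (Fin r → ZMod P) → Fin q → ZMod P,
    (∀ h : Fin q → ZMod P, h ≠ 0 →
      ‖∑ z, (ZMod.stdAddChar (∑ j, h j * Φ z j) : ℂ)‖ ≤ (P : ℝ) ^ (r - ε)) →
    Many κ ε δ P (powersetCard k s) (fun B => Φ (∑ i ∈ B, d i)) := by
  classical
  obtain ⟨κ, hκ, δ, hδ, P₀, h⟩ := crit q hq (ε / 2) (by positivity) (by linarith)
  obtain ⟨P₁, hP₁⟩ := eventually_atTop.1 ((ev_exp (2 * r + 1 + ε) ε hε).and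
    ((eventually_ge_atTop (2 : ℝ)).and
      ((tendsto_rpow_atTop (show 0 < ε / 2 by positivity)).eventually_ge_atTop 2)))
  refine ⟨κ, hκ, δ, hδ, max P₀ P₁, ?_⟩
  intro P _ hP ι s d m k hsr hm hs hk hlev hbig Φ hΦ
  obtain ⟨e1, e2, e3⟩ := hP₁ P ((le_max_right _ _).trans hP)
  have hP0 : (0 : ℝ) < P := by linarith
  have hP1 : (1 : ℝ) ≤ P := by linarith
  have hmr : (0 : ℝ) < m := by exact_mod_cast hm
  have hk0 : 0 < k := by
    rcases Nat.eq_zero_or_pos k with h0 | h0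
    · exfalso
      rw [h0] at hbig
      have : (0 : ℝ) < (m : ℝ) ^ 2 * (P : ℝ) ^ (2 + ε) := by positivity
      simp only [Nat.cast_zero, zero_mul] at hbig
      linarith
    · exact h0
  have hkn : k < s.card := by
    rcases Nat.eq_or_lt_of_le hk with h0 | h0
    · exfalso
      rw [h0, Nat.sub_self] at hbig
      have : (0 : ℝ) < (m : ℝ) ^ 2 * (P : ℝ) ^ (2 + ε) := by positivity
      simp only [Nat.cast_zero, mul_zero, zero_mul] at hbig
      linarith
    · exact h0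
  have hne : (powersetCard k s).Nonempty := powersetCard_nonempty.2 hk
  refine Many.mono hP1 (by linarith : ε / 2 ≤ ε)
    (h P ((le_max_left _ _).trans hP) _ _ _ hne fun h' hh' => ?_)
  set η : ℝ := ((P : ℝ) ^ r + 1) * Real.exp (-((P : ℝ) ^ ε / 16)) with hη
  have hcard : (powersetCard k s).card = s.card.choose k := card_powersetCard _ _
  have hcomp := comp P r (powersetCard k s) (fun B => ∑ i ∈ B, d i) η (by positivity)
    (fun k' hk' => by
      have h1 := ksub P s (fun i => ∑ j, k' j * d i j) m hm hs (hlev k' hk') k hk0 hkn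
      have h2 : ∀ B : Finset ι, ∑ j, k' j * (∑ i ∈ B, d i) j = ∑ i ∈ B, ∑ j, k' j * d i j := by
        intro B
        rw [sum_comm]
        refine sum_congr rfl fun j _ => ?_
        rw [Finset.sum_apply, mul_sum]
      rw [sum_congr rfl fun B _ => by rw [h2 B]]
      refine h1.trans ?_
      rw [hcard, hη]
      have h3 : (s.card : ℝ) ≤ (P : ℝ) ^ r := by exact_mod_cast hsr
      have h4 : (P : ℝ) ^ ε / 16 ≤
          (k : ℝ) * ((s.card - k : ℕ) : ℝ) * s.card / (16 * m ^ 2 * P ^ 2) := by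
        rw [div_le_div_iff₀ (by norm_num) (by positivity)]
        have h5 : (P : ℝ) ^ (2 + ε) = (P : ℝ) ^ 2 * (P : ℝ) ^ ε := by
          rw [Real.rpow_add hP0]
          congr 1
          exact_mod_cast Real.rpow_natCast (P : ℝ) 2
        rw [h5] at hbig
        nlinarith
      calc ((s.card : ℝ) + 1) * (s.card.choose k : ℝ) *
            Real.exp (-((k : ℝ) * ((s.card - k : ℕ) : ℝ) * s.card / (16 * m ^ 2 * P ^ 2)))
          ≤ ((P : ℝ) ^ r + 1) * (s.card.choose k : ℝ) * Real.exp (-((P : ℝ) ^ ε / 16)) := by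
            refine mul_le_mul (mul_le_mul_of_nonneg_right (by linarith) (Nat.cast_nonneg _))
              (Real.exp_le_exp.2 (neg_le_neg h4)) (Real.exp_pos _).le (by positivity)
        _ = _ := by ring)
    (fun z => (ZMod.stdAddChar (∑ j, h' j * Φ z j) : ℂ))
    (fun z => (AddChar.norm_apply _ _).le) ((P : ℝ) ^ (-ε)) (by
      refine (hΦ h' hh').trans (le_of_eq ?_)
      rw [← Real.rpow_natCast, ← Real.rpow_add hP0]
      congr 1
      ring)
  refine hcomp.trans (mul_le_mul_of_nonneg_left ?_ (Nat.cast_nonneg _))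
  -- `P ^ (-ε) + P ^ r η ≤ P ^ (-ε/2)`
  have hεpos : (0 : ℝ) < (P : ℝ) ^ (-ε) := Real.rpow_pos_of_pos hP0 _
  have h6 : (P : ℝ) ^ r * η ≤ (P : ℝ) ^ (-ε) := by
    have h7 : (P : ℝ) ^ r * ((P : ℝ) ^ r + 1) ≤ (P : ℝ) ^ (2 * (r : ℝ) + 1) := by
      have h8 : (P : ℝ) ^ (2 * (r : ℝ) + 1) = (P : ℝ) ^ r * ((P : ℝ) ^ r * P) := by
        rw [Real.rpow_add hP0, Real.rpow_one, two_mul, Real.rpow_add hP0, Real.rpow_natCast]
        ring
      rw [h8]
      refine mul_le_mul_of_nonneg_left ?_ (by positivity)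
      have h9 : (1 : ℝ) ≤ (P : ℝ) ^ r := one_le_pow₀ hP1
      nlinarith
    have h10 : (P : ℝ) ^ (2 * (r : ℝ) + 1) * Real.exp (-((P : ℝ) ^ ε / 16)) ≤ (P : ℝ) ^ (-ε) := by
      have h11 : (P : ℝ) ^ (2 * (r : ℝ) + 1 + ε) = (P : ℝ) ^ (2 * (r : ℝ) + 1) * (P : ℝ) ^ ε :=
        Real.rpow_add hP0 _ _
      rw [h11] at e1
      rw [Real.rpow_neg hP0.le, ← one_div, le_div_iff₀ (by positivity)]
      refine le_trans (le_of_eq ?_) e1
      ring
    calc (P : ℝ) ^ r * η = (P : ℝ) ^ r * ((P : ℝ) ^ r + 1) * Real.exp (-((P : ℝ) ^ ε / 16)) := by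
          rw [hη]; ring
      _ ≤ (P : ℝ) ^ (2 * (r : ℝ) + 1) * Real.exp (-((P : ℝ) ^ ε / 16)) :=
          mul_le_mul_of_nonneg_right h7 (Real.exp_pos _).le
      _ ≤ _ := h10
  have h12 : 2 * (P : ℝ) ^ (-ε) ≤ (P : ℝ) ^ (-(ε / 2)) := by
    have h13 : (P : ℝ) ^ (-(ε / 2)) = (P : ℝ) ^ (-ε) * (P : ℝ) ^ (ε / 2) := by
      rw [← Real.rpow_add hP0]
      congr 1
      ring
    rw [h13]
    nlinarith
  linarith

end Pool.Agent.U437.SS
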