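import Mathlib

/-! Elementary symmetric functions as a bijective function of the power sums. -/

set_option autoImplicit false

namespace Pool.Agent.U437.SS

open Finset

variable {F : Type} [Field F]

/-- The elementary symmetric functions computed from the sequence `y` of power sums by Newton's
recursion. -/
noncomputable def en (y : ℕ → F) : ℕ → F
  | 0 => 1
  | k + 1 => ((k : F) + 1)⁻¹ * ((-1) ^ (k + 2) *
      ∑ a : Fin (k + 1), (-1) ^ (a : ℕ) * en y a * y (k + 1 - a))

theorem en_succ (y : ℕ → F) (k : ℕ) : en y (k + 1) = ((k : F) + 1)⁻¹ * ((-1) ^ (k + 2) *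
    ∑ a ∈ range (k + 1), (-1) ^ a * en y a * y (k + 1 - a)) := by
  rw [en, Finset.sum_range fun a => (-1 : F) ^ a * en y a * y (k + 1 - a)]

/-- Newton's identities for a finite set of elements. -/
theorem en_eq (B : Finset F) (r : ℕ) (hr : ∀ k : ℕ, k < r → (k : F) + 1 ≠ 0) :
    ∀ k ≤ r, en (fun j => ∑ b ∈ B, b ^ j) k = B.val.esymm k := by
  classical
  intro k
  induction k using Nat.strong_induction_on with
  | _ k ih =>
    intro hk
    rcases k with _ | k
    · rw [en]
      simp [Multiset.esymm]
    · have h1 := congrArg (MvPolynomial.aeval (fun b : B => (b : F)))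
        (MvPolynomial.mul_esymm_eq_sum B F (k + 1))
      have hes : ∀ j, MvPolynomial.aeval (fun b : B => (b : F)) (MvPolynomial.esymm B F j) =
          B.val.esymm j := by
        intro j
        rw [MvPolynomial.aeval_esymm_eq_multiset_esymm]
        congr 1
        rw [← Finset.attach_eq_univ, Finset.attach_val]
        exact Multiset.attach_map_val B.val
      have hps : ∀ j, MvPolynomial.aeval (fun b : B => (b : F)) (MvPolynomial.psum B F j) =
          ∑ b ∈ B, b ^ j := by
        intro j
        rw [MvPolynomial.psum, map_sum]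
        simp only [map_pow, MvPolynomial.aeval_X]
        rw [Finset.sum_coe_sort B fun b => b ^ j]
      simp only [map_mul, map_natCast, map_pow, map_neg, map_one, map_sum, hes, hps] at h1
      have hk0 := hr k (by omega)
      rw [en_succ]
      have h2 : ∑ a ∈ antidiagonal (k + 1) with a.1 < k + 1,
          (-1 : F) ^ a.1 * B.val.esymm a.1 * ∑ b ∈ B, b ^ a.2 =
          ∑ a ∈ range (k + 1), (-1) ^ a * B.val.esymm a * ∑ b ∈ B, b ^ (k + 1 - a) := by
        refine sum_bij' (fun a _ => a.1) (fun a _ => (a, k + 1 - a)) ?_ ?_ ?_ ?_ ?_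
        · intro a ha
          rw [mem_filter] at ha
          exact mem_range.2 ha.2
        · intro a ha
          rw [mem_range] at ha
          rw [mem_filter, HasAntidiagonal.mem_antidiagonal]
          exact ⟨by omega, ha⟩
        · intro a ha
          rw [mem_filter, HasAntidiagonal.mem_antidiagonal] at ha
          ext <;> simp
          omega
        · intro a _
          rfl
        · intro a ha
          rw [mem_filter, HasAntidiagonal.mem_antidiagonal] at ha
          have : a.2 = k + 1 - a.1 := by omega
          rw [this]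
      rw [h2] at h1
      have h3 : ∑ a ∈ range (k + 1), (-1 : F) ^ a * en (fun j => ∑ b ∈ B, b ^ j) a *
          ∑ b ∈ B, b ^ (k + 1 - a) =
          ∑ a ∈ range (k + 1), (-1) ^ a * B.val.esymm a * ∑ b ∈ B, b ^ (k + 1 - a) := by
        refine sum_congr rfl fun a ha => ?_
        rw [mem_range] at ha
        rw [ih a ha (by omega)]
      rw [h3]
      have h4 : (-1 : F) ^ (k + 2) * ∑ a ∈ range (k + 1), (-1) ^ a * B.val.esymm a *
          ∑ b ∈ B, b ^ (k + 1 - a) = ((k : F) + 1) * B.val.esymm (k + 1) := by
        rw [← h1]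
        push_cast
        ring
      rw [h4, ← mul_assoc, inv_mul_cancel₀ hk0, one_mul]

/-- extension of a vector by zero, the first coordinate having index one -/
def ext0 {r : ℕ} (y : Fin r → F) (j : ℕ) : F := if h : 0 < j ∧ j ≤ r then y ⟨j - 1, by omega⟩ else 0

theorem ext0_succ {r : ℕ} (y : Fin r → F) (j : Fin r) : ext0 y ((j : ℕ) + 1) = y j := by
  unfold ext0
  rw [dif_pos ⟨Nat.succ_pos _, j.2⟩]
  rfl

/-- The map from the power sums to the elementary symmetric functions. -/
noncomputable def newt {r : ℕ} (y : Fin r → F) (j : Fin r) : F := en (ext0 y) ((j : ℕ) + 1)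

theorem en_congr (y z : ℕ → F) (k : ℕ) (h : ∀ j, 0 < j → j ≤ k → y j = z j) : en y k = en z k := by
  induction k using Nat.strong_induction_on with
  | _ k ih =>
    rcases k with _ | k
    · rw [en, en]
    · rw [en_succ, en_succ]
      congr 2
      refine sum_congr rfl fun a ha => ?_
      rw [mem_range] at ha
      rw [ih a ha fun j hj hja => h j hj (by omega), h (k + 1 - a) (by omega) (by omega)]

theorem newt_eq (B : Finset F) (r : ℕ) (hr : ∀ k : ℕ, k < r → (k : F) + 1 ≠ 0) :
    newt (fun j : Fin r => ∑ b ∈ B, b ^ ((j : ℕ) + 1)) =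
      fun j : Fin r => B.val.esymm ((j : ℕ) + 1) := by
  funext j
  unfold newt
  rw [← en_eq B r hr _ j.2]
  refine en_congr _ _ _ fun i hi hij => ?_
  have := ext0_succ (fun j : Fin r => ∑ b ∈ B, b ^ ((j : ℕ) + 1)) ⟨i - 1, by omega⟩
  have h2 : i - 1 + 1 = i := by omega
  simp only [h2] at this
  exact this

theorem newt_injective {r : ℕ} (hr : ∀ k : ℕ, k < r → (k : F) + 1 ≠ 0) :
    Function.Injective (newt : (Fin r → F) → (Fin r → F)) := by
  intro y z h
  have key : ∀ k, 0 < k → k ≤ r → ext0 y k = ext0 z k := by
    intro k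
    induction k using Nat.strong_induction_on with
    | _ k ih =>
      intro hk hkr
      obtain ⟨k, rfl⟩ := Nat.exists_eq_succ_of_ne_zero hk.ne'
      have h1 := congrFun h ⟨k, hkr⟩
      unfold newt at h1
      rw [en_succ, en_succ] at h1
      have hk0 := hr k hkr
      have h2 := mul_left_cancel₀ (inv_ne_zero hk0) h1
      have h3 := mul_left_cancel₀ (pow_ne_zero _ (neg_ne_zero.2 one_ne_zero)) h2
      rw [sum_range_succ', sum_range_succ'] at h3
      have h4 : ∑ a ∈ range k, (-1 : F) ^ (a + 1) * en (ext0 y) (a + 1) * ext0 y (k + 1 - (a + 1)) =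
          ∑ a ∈ range k, (-1 : F) ^ (a + 1) * en (ext0 z) (a + 1) * ext0 z (k + 1 - (a + 1)) := by
        refine sum_congr rfl fun a ha => ?_
        rw [mem_range] at ha
        rw [en_congr (ext0 y) (ext0 z) (a + 1) fun j hj hja => ih j (by omega) hj (by omega),
          ih (k + 1 - (a + 1)) (by omega) (by omega) (by omega)]
      rw [h4] at h3
      have h5 := add_left_cancel h3
      simpa [en] using h5
  funext j
  rw [← ext0_succ y j, ← ext0_succ z j]
  exact key _ (Nat.succ_pos _) j.2

end Pool.Agent.U437.SS
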