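import Pool.Agent.U437.SS.Comp
import Pool.Agent.U437.SS.Newton

/-! Record gaps at the power sums and at the coefficients of split polynomials. -/

set_option autoImplicit false

namespace Pool.Agent.U437.SS

open Finset Filter
open Pool.Agent.N825.FC (Many crit)
open Pool.Agent.W147.PS (ev_pow)

/-- the exponential sums of a bijection vanish -/
theorem bij_sum {P r : ℕ} [NeZero P] (Φ : (Fin r → ZMod P) → Fin r → ZMod P)
    (hΦ : Function.Injective Φ) (h : Fin r → ZMod P) (hh : h ≠ 0) :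
    ∑ z, (ZMod.stdAddChar (∑ j, h j * Φ z j) : ℂ) = 0 := by
  classical
  have hb : Function.Bijective Φ := Finite.injective_iff_bijective.1 hΦ
  rw [Function.Bijective.sum_comp hb fun z => (ZMod.stdAddChar (∑ j, h j * z j) : ℂ)]
  have h1 := orth P r h
  rw [if_neg hh] at h1
  rw [← h1]
  refine sum_congr rfl fun z _ => ?_
  congr 1
  exact sum_congr rfl fun j _ => mul_comm _ _

/-- **Bijections of the vector of power sums.** -/
theorem powers (r : ℕ) (hr : 1 ≤ r) (ε : ℝ) (hε : 0 < ε) (hε1 : ε ≤ 1) :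
    ∃ κ : ℝ, 0 < κ ∧ ∃ δ : ℝ, 0 < δ ∧ ∃ P₀ : ℝ, ∀ (P : ℕ) [Fact P.Prime], P₀ ≤ P →
    ∀ (A : Finset (ZMod P)) (k : ℕ), k ≤ A.card →
    (P : ℝ) ^ (2 + ε) ≤ (k : ℝ) * ((A.card - k : ℕ) : ℝ) * A.card →
    ∀ Φ : (Fin r → ZMod P) → Fin r → ZMod P, Function.Injective Φ →
    Many κ ε δ P (powersetCard k A) (fun B => Φ (fun j => ∑ b ∈ B, b ^ ((j : ℕ) + 1))) := by
  classical
  obtain ⟨κ, hκ, δ, hδ, P₀, h⟩ := general r r hr (ε / 2) (by positivity) (by linarith)
  obtain ⟨P₁, hP₁⟩ := eventually_atTop.1 ((ev_pow (2 + ε / 2) (2 + ε) ((r : ℝ) ^ 2)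
    (by linarith)).and ((eventually_ge_atTop (1 : ℝ)).and
      (eventually_ge_atTop ((4 * (r : ℝ)) ^ 3))))
  refine ⟨κ, hκ, δ, hδ, max P₀ P₁, ?_⟩
  intro P _ hP A k hk hbig Φ hΦ
  obtain ⟨e1, e2, e3⟩ := hP₁ P ((le_max_right _ _).trans hP)
  have hP0 : (0 : ℝ) < P := by linarith
  have hAP : A.card ≤ P := by
    have := card_le_univ A
    rwa [ZMod.card] at this
  have hcube : (P : ℝ) ^ (2 + ε) ≤ (A.card : ℝ) ^ 3 := by
    refine hbig.trans ?_
    have h1 : (k : ℝ) ≤ A.card := by exact_mod_cast hk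
    have h2 : ((A.card - k : ℕ) : ℝ) ≤ A.card := by exact_mod_cast Nat.sub_le _ _
    calc (k : ℝ) * ((A.card - k : ℕ) : ℝ) * A.card ≤ A.card * A.card * A.card :=
          mul_le_mul_of_nonneg_right (mul_le_mul h1 h2 (Nat.cast_nonneg _) (Nat.cast_nonneg _))
            (Nat.cast_nonneg _)
      _ = _ := by ring
  have h4r : 4 * r ≤ A.card := by
    have h1 : (P : ℝ) ≤ (P : ℝ) ^ (2 + ε) := by
      conv_lhs => rw [← Real.rpow_one (P : ℝ)]
      exact Real.rpow_le_rpow_of_exponent_le e2 (by linarith)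
    have h2 : (4 * (r : ℝ)) ^ 3 ≤ (A.card : ℝ) ^ 3 := e3.trans (h1.trans hcube)
    have h3 : 4 * (r : ℝ) ≤ A.card := le_of_pow_le_pow_left₀ (by norm_num) (Nat.cast_nonneg _) h2
    exact_mod_cast h3
  have hd : ∀ B : Finset (ZMod P), (fun j : Fin r => ∑ b ∈ B, b ^ ((j : ℕ) + 1)) =
      ∑ b ∈ B, fun j : Fin r => b ^ ((j : ℕ) + 1) := by
    intro B
    funext j
    rw [Finset.sum_apply]
  have key := h P ((le_max_left _ _).trans hP) (ZMod P) A (fun b j => b ^ ((j : ℕ) + 1)) r k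
    (hAP.trans (Nat.le_self_pow (by omega) P)) (by omega) h4r hk
    (fun h' hh' a => Pool.Agent.N825.FC.roots r h' hh' A a)
    (le_trans e1 hbig) Φ (fun h' hh' => by
      rw [bij_sum Φ hΦ h' hh', norm_zero]
      positivity)
  have key2 : Many κ (ε / 2) δ P (powersetCard k A)
      (fun B => Φ (fun j => ∑ b ∈ B, b ^ ((j : ℕ) + 1))) := by
    have h5 : (fun B : Finset (ZMod P) => Φ (fun j : Fin r => ∑ b ∈ B, b ^ ((j : ℕ) + 1))) =
        fun B => Φ (∑ b ∈ B, fun j : Fin r => b ^ ((j : ℕ) + 1)) := by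
      funext B
      rw [hd B]
    rw [h5]
    exact key
  exact key2.mono e2 (by linarith)

/-- **Coefficients of split polynomials.** -/
theorem coeffs (r : ℕ) (hr : 1 ≤ r) (ε : ℝ) (hε : 0 < ε) (hε1 : ε ≤ 1) :
    ∃ κ : ℝ, 0 < κ ∧ ∃ δ : ℝ, 0 < δ ∧ ∃ P₀ : ℝ, ∀ (P : ℕ) [Fact P.Prime], P₀ ≤ P →
    ∀ (A : Finset (ZMod P)) (k : ℕ), k ≤ A.card →
    (P : ℝ) ^ (2 + ε) ≤ (k : ℝ) * ((A.card - k : ℕ) : ℝ) * A.card →
    r ≤ k ∧ Many κ ε δ P (powersetCard k A) (fun (B : Finset (ZMod P)) (j : Fin r) =>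
      (∏ b ∈ B, (Polynomial.X - Polynomial.C b)).coeff (k - 1 - j)) := by
  classical
  obtain ⟨κ, hκ, δ, hδ, P₀, h⟩ := powers r hr ε hε hε1
  obtain ⟨P₁, hP₁⟩ := eventually_atTop.1 ((ev_pow 2 (2 + ε) (r : ℝ) (by linarith)).and
    ((eventually_ge_atTop (1 : ℝ)).and (eventually_gt_atTop (r : ℝ))))
  refine ⟨κ, hκ, δ, hδ, max P₀ P₁, ?_⟩
  intro P hfact hP A k hk hbig
  obtain ⟨e1, e2, e3⟩ := hP₁ P ((le_max_right _ _).trans hP)
  have hP0 : (0 : ℝ) < P := by linarith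
  have hAP : A.card ≤ P := by
    have := card_le_univ A
    rwa [ZMod.card] at this
  have hrk : r ≤ k := by
    have h1 : (r : ℝ) * (P : ℝ) ^ (2 : ℝ) ≤ k * (P : ℝ) ^ (2 : ℝ) := by
      refine e1.trans (hbig.trans ?_)
      have h2 : ((A.card - k : ℕ) : ℝ) ≤ P := by
        have : A.card - k ≤ P := (Nat.sub_le _ _).trans hAP
        exact_mod_cast this
      have h3 : (A.card : ℝ) ≤ P := by exact_mod_cast hAP
      have h4 : (P : ℝ) ^ (2 : ℝ) = P * P := by
        rw [show (2 : ℝ) = ((2 : ℕ) : ℝ) by norm_num, Real.rpow_natCast]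
        ring
      rw [h4]
      calc (k : ℝ) * ((A.card - k : ℕ) : ℝ) * A.card ≤ (k : ℝ) * P * P :=
            mul_le_mul (mul_le_mul_of_nonneg_left h2 (Nat.cast_nonneg _)) h3 (Nat.cast_nonneg _)
              (by positivity)
        _ = _ := by ring
    have h5 := le_of_mul_le_mul_right h1 (by positivity)
    exact_mod_cast h5
  refine ⟨hrk, ?_⟩
  have hrP : r < P := by exact_mod_cast e3
  have hr0 : ∀ i : ℕ, i < r → (i : ZMod P) + 1 ≠ 0 := by
    intro i hi h0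
    have h1 : ((i + 1 : ℕ) : ZMod P) = 0 := by
      push_cast
      exact h0
    rw [ZMod.natCast_eq_zero_iff] at h1
    have := Nat.le_of_dvd (Nat.succ_pos _) h1
    omega
  have key := h P ((le_max_left _ _).trans hP) A k hk hbig
    (fun y j => (-1) ^ ((j : ℕ) + 1) * newt y j) (by
      intro y z hyz
      refine newt_injective hr0 ?_
      funext j
      have := congrFun hyz j
      exact mul_left_cancel₀ (pow_ne_zero _ (neg_ne_zero.2 one_ne_zero)) this)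
  intro M L hL1 hL2
  obtain ⟨g, hg, h1, h2⟩ := key M L hL1 hL2
  refine ⟨g, hg, h1, fun B hB j => ?_⟩
  obtain ⟨n, a1, a2, a3, a4⟩ := h2 B hB j
  refine ⟨n, a1, a2, ?_, a4⟩
  rw [a3]
  beta_reduce
  rw [newt_eq B r hr0]
  have hBk : B.card = k := (mem_powersetCard.1 (hg hB)).2
  have h3 := Multiset.prod_X_sub_C_coeff B.val (k := k - 1 - j) (by
    have : Multiset.card B.val = B.card := rfl
    omega)
  have h4 : (Multiset.map (fun t => Polynomial.X - Polynomial.C t) B.val).prod =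
      ∏ b ∈ B, (Polynomial.X - Polynomial.C b) := rfl
  rw [h4] at h3
  have h5 : Multiset.card B.val - (k - 1 - (j : ℕ)) = (j : ℕ) + 1 := by
    have h6 : Multiset.card B.val = B.card := rfl
    have := j.2
    omega
  rw [h5] at h3
  rw [h3]

end Pool.Agent.U437.SS
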