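import Mathlib

/-! Size of the products `∏ (1 + ρ e(c + g_i / p))`. -/

set_option autoImplicit false

namespace Pool.Agent.U437.SS

open Finset Real

/-- the signed distance to the nearest integer -/
noncomputable def di (φ : ℝ) : ℝ := φ - round φ

theorem norm_one_add (ρ φ : ℝ) (hρ : 0 ≤ ρ) :
    ‖1 + (ρ : ℂ) * Complex.exp (2 * π * Complex.I * φ)‖ ≤
      (1 + ρ) * exp (-(8 * ρ / (1 + ρ) ^ 2 * (di φ) ^ 2)) := by
  have h1 : |di φ| ≤ 1 / 2 := abs_sub_round φ
  have h2 : cos (2 * π * φ) = cos (2 * π * di φ) := by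
    unfold di
    have h : 2 * π * (φ - round φ) = 2 * π * φ - (round φ : ℤ) * (2 * π) := by ring
    rw [h, Real.cos_sub_int_mul_two_pi]
  have h3 : cos (2 * π * di φ) ≤ 1 - 8 * (di φ) ^ 2 := by
    have h4 : |2 * π * di φ| ≤ π := by
      rw [abs_mul, abs_of_pos (by positivity : (0 : ℝ) < 2 * π)]
      nlinarith [Real.pi_pos]
    have h5 := Real.cos_le_one_sub_mul_cos_sq h4
    have h6 : 2 / π ^ 2 * (2 * π * di φ) ^ 2 = 8 * (di φ) ^ 2 := by
      field_simp
      ring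
    linarith
  have h7 : ‖1 + (ρ : ℂ) * Complex.exp (2 * π * Complex.I * φ)‖ ^ 2 =
      (1 + ρ) ^ 2 - 2 * ρ * (1 - cos (2 * π * φ)) := by
    have he : Complex.exp (2 * π * Complex.I * φ) =
        (cos (2 * π * φ) : ℂ) + (sin (2 * π * φ) : ℂ) * Complex.I := by
      have h : (2 * π * Complex.I * φ : ℂ) = ((2 * π * φ : ℝ) : ℂ) * Complex.I := by
        push_cast
        ring
      rw [h, Complex.exp_mul_I, ← Complex.ofReal_cos, ← Complex.ofReal_sin]
    rw [← Complex.normSq_eq_norm_sq, he, Complex.normSq_apply]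
    simp only [Complex.add_re, Complex.one_re, Complex.mul_re, Complex.ofReal_re,
      Complex.ofReal_im, Complex.I_re, Complex.I_im, Complex.add_im, Complex.one_im, Complex.mul_im]
    have hs := Real.sin_sq_add_cos_sq (2 * π * φ)
    nlinarith [hs]
  have hp : (0 : ℝ) < 1 + ρ := by linarith
  have h8 : ‖1 + (ρ : ℂ) * Complex.exp (2 * π * Complex.I * φ)‖ ^ 2 ≤
      ((1 + ρ) * exp (-(8 * ρ / (1 + ρ) ^ 2 * (di φ) ^ 2))) ^ 2 := by
    rw [h7, h2, mul_pow, ← Real.exp_nat_mul]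
    have h9 : (1 : ℝ) - 16 * ρ / (1 + ρ) ^ 2 * (di φ) ^ 2 ≤
        exp (((2 : ℕ) : ℝ) * -(8 * ρ / (1 + ρ) ^ 2 * (di φ) ^ 2)) := by
      refine le_trans (le_of_eq ?_) (Real.add_one_le_exp _)
      push_cast
      ring
    have h10 : (1 + ρ) ^ 2 - 2 * ρ * (1 - cos (2 * π * di φ)) ≤
        (1 + ρ) ^ 2 * (1 - 16 * ρ / (1 + ρ) ^ 2 * (di φ) ^ 2) := by
      have h11 : (1 + ρ) ^ 2 * (1 - 16 * ρ / (1 + ρ) ^ 2 * (di φ) ^ 2) =
          (1 + ρ) ^ 2 - 16 * ρ * (di φ) ^ 2 := by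
        field_simp
      rw [h11]
      nlinarith [mul_le_mul_of_nonneg_left h3 hρ]
    exact h10.trans (mul_le_mul_of_nonneg_left h9 (by positivity))
  exact le_of_sq_le_sq h8 (by positivity)
where
  le_of_sq_le_sq {a b : ℝ} (h : a ^ 2 ≤ b ^ 2) (hb : 0 ≤ b) : a ≤ b :=
    le_of_abs_le ((abs_le_abs_of_sq_le_sq h).trans (abs_of_nonneg hb).le)
  abs_le_abs_of_sq_le_sq {a b : ℝ} (h : a ^ 2 ≤ b ^ 2) : |a| ≤ |b| := sq_le_sq.1 h

/-- Residues which bring `c + a / p` close to an integer. -/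
theorem card_close (p : ℕ) (hp : 0 < p) (c τ : ℝ) (hτ : 0 ≤ τ) :
    (((range p).filter fun a : ℕ => |di (c + a / p)| ≤ τ).card : ℝ) ≤ 2 * τ * p + 1 := by
  have hpr : (0 : ℝ) < p := by exact_mod_cast hp
  set T := (range p).filter fun a : ℕ => |di (c + a / p)| ≤ τ with hT
  let F : ℕ → ℤ := fun a => (a : ℤ) - p * round (c + (a : ℝ) / p)
  have hinj : Set.InjOn F T := by
    intro a ha b hb hab
    have ha' := mem_range.1 (mem_filter.1 (mem_coe.1 ha)).1
    have hb' := mem_range.1 (mem_filter.1 (mem_coe.1 hb)).1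
    have h1 : (a : ℤ) % p = (b : ℤ) % p := by
      have h2 : (a : ℤ) = b + p * (round (c + (a : ℝ) / p) - round (c + (b : ℝ) / p)) := by
        have h3 : (a : ℤ) - p * round (c + (a : ℝ) / p) = (b : ℤ) - p * round (c + (b : ℝ) / p) :=
          hab
        linarith [mul_sub (p : ℤ) (round (c + (a : ℝ) / p)) (round (c + (b : ℝ) / p))]
      rw [h2, Int.add_mul_emod_self_left]
    rw [Int.emod_eq_of_lt (by positivity) (by exact_mod_cast ha'),
      Int.emod_eq_of_lt (by positivity) (by exact_mod_cast hb')] at h1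
    exact_mod_cast h1
  have hmaps : ∀ a ∈ T, F a ∈ Icc ⌈-(p * c) - p * τ⌉ ⌊-(p * c) + p * τ⌋ := by
    intro a ha
    have h1 := (mem_filter.1 ha).2
    unfold di at h1
    rw [abs_le] at h1
    have h2 : ((F a : ℤ) : ℝ) = p * ((c + (a : ℝ) / p) - round (c + (a : ℝ) / p)) - p * c := by
      show (((a : ℤ) - p * round (c + (a : ℝ) / p) : ℤ) : ℝ) = _
      push_cast
      field_simp
      ring
    rw [mem_Icc, Int.ceil_le, Int.le_floor, h2]
    constructor <;> nlinarith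
  have h1 := card_le_card_of_injOn F hmaps hinj
  rw [Int.card_Icc] at h1
  have h2 : (T.card : ℝ) ≤ ((⌊-(p * c) + p * τ⌋ + 1 - ⌈-(p * c) - p * τ⌉).toNat : ℝ) := by
    exact_mod_cast h1
  refine h2.trans ?_
  rcases le_total 0 (⌊-((p : ℝ) * c) + p * τ⌋ + 1 - ⌈-((p : ℝ) * c) - p * τ⌉) with h3 | h3
  · have h4 : ((⌊-((p : ℝ) * c) + p * τ⌋ + 1 - ⌈-((p : ℝ) * c) - p * τ⌉).toNat : ℝ) =
        ((⌊-((p : ℝ) * c) + p * τ⌋ + 1 - ⌈-((p : ℝ) * c) - p * τ⌉ : ℤ) : ℝ) := by
      have := Int.toNat_of_nonneg h3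
      exact_mod_cast congrArg (fun z : ℤ => (z : ℝ)) this
    rw [h4]
    push_cast
    have h5 := Int.floor_le (-((p : ℝ) * c) + p * τ)
    have h6 := Int.le_ceil (-((p : ℝ) * c) - p * τ)
    nlinarith
  · rw [Int.toNat_of_nonpos h3]
    push_cast
    positivity

/-- The mean square of the distances. -/
theorem sum_sq {ι : Type} (p : ℕ) (hp : 0 < p) (s : Finset ι) (g : ι → ℕ) (hg : ∀ i ∈ s, g i < p)
    (m : ℕ) (hm : 0 < m) (hs : 4 * m ≤ s.card)
    (hlev : ∀ a, (s.filter fun i => g i = a).card ≤ m) (c : ℝ) :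
    (s.card : ℝ) ^ 3 / (128 * m ^ 2 * p ^ 2) ≤ ∑ i ∈ s, (di (c + g i / p)) ^ 2 := by
  classical
  have hpr : (0 : ℝ) < p := by exact_mod_cast hp
  have hmr : (0 : ℝ) < m := by exact_mod_cast hm
  have hsr : (4 : ℝ) * m ≤ s.card := by exact_mod_cast hs
  obtain ⟨τ, hτ⟩ : ∃ τ : ℝ, τ = s.card / (8 * m * p) := ⟨_, rfl⟩
  have hτ0 : 0 ≤ τ := by rw [hτ]; positivity
  set S := s.filter fun i => |di (c + g i / p)| ≤ τ with hS
  have hcard : (S.card : ℝ) ≤ m * (2 * τ * p + 1) := by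
    have h1 : S.card ≤ m * ((range p).filter fun a : ℕ => |di (c + a / p)| ≤ τ).card := by
      refine card_le_mul_card_image_of_maps_to (f := g) ?_ m ?_
      · intro i hi
        have := mem_filter.1 hi
        exact mem_filter.2 ⟨mem_range.2 (hg i this.1), this.2⟩
      · intro a _
        refine (card_le_card ?_).trans (hlev a)
        intro i hi
        rw [mem_filter] at hi ⊢
        exact ⟨(mem_filter.1 hi.1).1, hi.2⟩
    calc (S.card : ℝ) ≤ ((m * ((range p).filter fun a : ℕ => |di (c + a / p)| ≤ τ).card : ℕ) : ℝ) := by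
          exact_mod_cast h1
      _ = m * (((range p).filter fun a : ℕ => |di (c + a / p)| ≤ τ).card : ℝ) := by push_cast; ring
      _ ≤ m * (2 * τ * p + 1) := mul_le_mul_of_nonneg_left (card_close p hp c τ hτ0) hmr.le
  have hhalf : (S.card : ℝ) ≤ s.card / 2 := by
    have h1 : (m : ℝ) * (2 * τ * p + 1) = s.card / 4 + m := by
      rw [hτ]
      field_simp
      ring
    linarith
  have hrest : (s.card : ℝ) / 2 ≤ ((s \ S).card : ℝ) := by
    have h1 : (s \ S).card + S.card = s.card :=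
      card_sdiff_add_card_eq_card (filter_subset _ _)
    have h2 : ((s \ S).card : ℝ) + S.card = s.card := by exact_mod_cast h1
    linarith
  calc (s.card : ℝ) ^ 3 / (128 * m ^ 2 * p ^ 2) = s.card / 2 * τ ^ 2 := by
        rw [hτ]
        field_simp
        ring
    _ ≤ (s \ S).card * τ ^ 2 := mul_le_mul_of_nonneg_right hrest (by positivity)
    _ = ∑ _i ∈ s \ S, τ ^ 2 := by rw [sum_const, nsmul_eq_mul]
    _ ≤ ∑ i ∈ s \ S, (di (c + g i / p)) ^ 2 := by
        refine sum_le_sum fun i hi => ?_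
        have h1 := mem_sdiff.1 hi
        have h2 : τ < |di (c + g i / p)| := by
          by_contra hc
          exact h1.2 (mem_filter.2 ⟨h1.1, not_lt.1 hc⟩)
        rw [← sq_abs (di (c + g i / p))]
        exact pow_le_pow_left₀ hτ0 h2.le 2
    _ ≤ ∑ i ∈ s, (di (c + g i / p)) ^ 2 :=
        sum_le_sum_of_subset_of_nonneg sdiff_subset fun _ _ _ => sq_nonneg _

end Pool.Agent.U437.SS
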