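import Pool.Agent.U437.SS.Osc

/-! Exponential sums over the subsets of given size. -/

set_option autoImplicit false

namespace Pool.Agent.U437.SS

open Finset Real

theorem char_eq (p : ℕ) [NeZero p] (a : ZMod p) :
    (ZMod.stdAddChar a : ℂ) = Complex.exp (2 * π * Complex.I * (((a.val : ℝ) / p : ℝ) : ℂ)) := by
  have h1 : ((a.val : ℤ) : ZMod p) = a := by
    rw [Int.cast_natCast, ZMod.natCast_zmod_val]
  conv_lhs => rw [← h1]
  rw [ZMod.stdAddChar_coe]
  congr 1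
  push_cast
  ring

theorem char_mul (N p : ℕ) [NeZero N] [NeZero p] (t : ZMod N) (a : ZMod p) :
    (ZMod.stdAddChar t * ZMod.stdAddChar a : ℂ) =
      Complex.exp (2 * π * Complex.I * (((t.val : ℝ) / N + (a.val : ℝ) / p : ℝ) : ℂ)) := by
  rw [char_eq, char_eq, ← Complex.exp_add]
  congr 1
  push_cast
  ring

theorem prod_bound {ι : Type} (N p : ℕ) [NeZero N] [NeZero p] (s : Finset ι) (g : ι → ZMod p)
    (m : ℕ) (hm : 0 < m) (hs : 4 * m ≤ s.card)
    (hlev : ∀ a, (s.filter fun i => g i = a).card ≤ m) (ρ : ℝ) (hρ : 0 ≤ ρ) (t : ZMod N) :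
    ‖∏ i ∈ s, (1 + (ρ : ℂ) * (ZMod.stdAddChar t * ZMod.stdAddChar (g i)))‖ ≤
      (1 + ρ) ^ s.card *
        exp (-(8 * ρ / (1 + ρ) ^ 2 * ((s.card : ℝ) ^ 3 / (128 * m ^ 2 * p ^ 2)))) := by
  classical
  rw [norm_prod]
  have h1 : ∀ i ∈ s, ‖1 + (ρ : ℂ) * (ZMod.stdAddChar t * ZMod.stdAddChar (g i))‖ ≤
      (1 + ρ) * exp (-(8 * ρ / (1 + ρ) ^ 2 *
        (di ((t.val : ℝ) / N + ((g i).val : ℕ) / p)) ^ 2)) := by
    intro i _
    rw [char_mul]
    exact norm_one_add ρ _ hρ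
  refine (Finset.prod_le_prod (fun i _ => norm_nonneg _) h1).trans ?_
  rw [prod_mul_distrib, prod_const, ← Real.exp_sum]
  refine mul_le_mul_of_nonneg_left (Real.exp_le_exp.2 ?_) (by positivity)
  rw [sum_neg_distrib, ← mul_sum]
  refine neg_le_neg (mul_le_mul_of_nonneg_left ?_ (by positivity))
  refine sum_sq p (Nat.pos_of_ne_zero (NeZero.ne p)) s (fun i => (g i).val)
    (fun i _ => ZMod.val_lt _) m hm hs (fun a => ?_) _
  refine (card_le_card ?_).trans (hlev (a : ZMod p))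
  intro i hi
  rw [mem_filter] at hi ⊢
  refine ⟨hi.1, ?_⟩
  rw [← hi.2, ZMod.natCast_zmod_val]

theorem char_sum {A : Type} [AddCommMonoid A] {ι : Type} (ψ : AddChar A ℂ) (B : Finset ι)
    (g : ι → A) : ψ (∑ i ∈ B, g i) = ∏ i ∈ B, ψ (g i) := by
  classical
  induction B using Finset.induction_on with
  | empty => simp
  | insert a B ha ih => rw [sum_insert ha, prod_insert ha, AddChar.map_add_eq_mul, ih]

/-- Extraction of a coefficient. -/
theorem coeff_bound {ι : Type} (s : Finset ι) (c : ι → ℂ) (k : ℕ) (hk : k ≤ s.card) (ρ : ℝ)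
    (hρ : 0 < ρ) (M : ℝ)
    (hM : ∀ t : ZMod (s.card + 1), ‖∏ i ∈ s, (1 + (ρ : ℂ) * (ZMod.stdAddChar t * c i))‖ ≤ M) :
    ‖∑ B ∈ powersetCard k s, ∏ i ∈ B, c i‖ ≤ M / ρ ^ k := by
  classical
  set N := s.card + 1 with hN
  have hN0 : (0 : ℝ) < N := by rw [hN]; positivity
  have hmain : ((N : ℂ) * (ρ : ℂ) ^ k) * ∑ B ∈ powersetCard k s, ∏ i ∈ B, c i =
      ∑ t : ZMod N, ZMod.stdAddChar (-(t * (k : ZMod N))) *
        ∏ i ∈ s, (1 + (ρ : ℂ) * (ZMod.stdAddChar t * c i)) := by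
    have h1 : ∀ t : ZMod N, ZMod.stdAddChar (-(t * (k : ZMod N))) *
        ∏ i ∈ s, (1 + (ρ : ℂ) * (ZMod.stdAddChar t * c i)) =
        ∑ B ∈ s.powerset, ((ρ : ℂ) ^ B.card * ∏ i ∈ B, c i) *
          ZMod.stdAddChar (t * ((B.card : ZMod N) - (k : ZMod N))) := by
      intro t
      rw [prod_one_add, mul_sum]
      refine sum_congr rfl fun B _ => ?_
      rw [prod_mul_distrib, prod_const, prod_mul_distrib, prod_const]
      have h2 : (ZMod.stdAddChar (t * ((B.card : ZMod N) - (k : ZMod N))) : ℂ) =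
          ZMod.stdAddChar (-(t * (k : ZMod N))) * (ZMod.stdAddChar t) ^ B.card := by
        rw [← AddChar.map_nsmul_eq_pow, ← AddChar.map_add_eq_mul]
        congr 1
        rw [nsmul_eq_mul]
        ring
      rw [h2]
      ring
    rw [sum_congr rfl fun t _ => h1 t, sum_comm]
    have h3 : ∀ B ∈ s.powerset, ∑ t : ZMod N, ((ρ : ℂ) ^ B.card * ∏ i ∈ B, c i) *
        ZMod.stdAddChar (t * ((B.card : ZMod N) - (k : ZMod N))) =
        if B.card = k then ((N : ℂ) * (ρ : ℂ) ^ k) * ∏ i ∈ B, c i else 0 := by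
      intro B hB
      rw [← mul_sum, AddChar.sum_mulShift _ (ZMod.isPrimitive_stdAddChar N), ZMod.card]
      have hBc : B.card ≤ s.card := card_le_card (mem_powerset.1 hB)
      have h4 : ((B.card : ZMod N) - (k : ZMod N) = 0) ↔ B.card = k := by
        rw [sub_eq_zero, ZMod.natCast_eq_natCast_iff', Nat.mod_eq_of_lt (by omega),
          Nat.mod_eq_of_lt (by omega)]
      by_cases h5 : B.card = k
      · rw [if_pos (h4.2 h5), if_pos h5, h5]
        ring
      · rw [if_neg (fun h => h5 (h4.1 h)), if_neg h5]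
        simp
    rw [sum_congr rfl h3, ← sum_filter, mul_sum]
    refine sum_congr ?_ fun _ _ => rfl
    ext B
    rw [mem_filter, mem_powerset, mem_powersetCard]
  have hnorm : (N : ℝ) * ρ ^ k * ‖∑ B ∈ powersetCard k s, ∏ i ∈ B, c i‖ ≤ N * M := by
    have h1 : (N : ℝ) * ρ ^ k = ‖((N : ℂ) * (ρ : ℂ) ^ k)‖ := by
      rw [norm_mul, norm_pow, Complex.norm_natCast, Complex.norm_of_nonneg hρ.le]
    rw [h1, ← norm_mul, hmain]
    refine (norm_sum_le _ _).trans ?_
    calc ∑ t : ZMod N, ‖ZMod.stdAddChar (-(t * (k : ZMod N))) *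
          ∏ i ∈ s, (1 + (ρ : ℂ) * (ZMod.stdAddChar t * c i))‖ ≤ ∑ _t : ZMod N, M := by
          refine sum_le_sum fun t _ => ?_
          rw [norm_mul, AddChar.norm_apply, one_mul]
          exact hM t
      _ = N * M := by rw [sum_const, card_univ, ZMod.card, nsmul_eq_mul]
  rw [le_div_iff₀ (by positivity)]
  have h2 : (N : ℝ) * (‖∑ B ∈ powersetCard k s, ∏ i ∈ B, c i‖ * ρ ^ k) ≤ N * M := by
    calc _ = (N : ℝ) * ρ ^ k * ‖∑ B ∈ powersetCard k s, ∏ i ∈ B, c i‖ := by ring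
      _ ≤ _ := hnorm
  exact le_of_mul_le_mul_left h2 hN0

/-- The largest term of the binomial expansion. -/
theorem binom (n k : ℕ) (hk : 0 < k) (hkn : k < n) :
    (1 + (k : ℝ) / ((n - k : ℕ) : ℝ)) ^ n ≤
      (n + 1) * n.choose k * ((k : ℝ) / ((n - k : ℕ) : ℝ)) ^ k := by
  set ρ : ℝ := (k : ℝ) / ((n - k : ℕ) : ℝ) with hρ
  have hnk : (0 : ℝ) < ((n - k : ℕ) : ℝ) := by
    have : 0 < n - k := by omega
    exact_mod_cast this
  have hk' : (0 : ℝ) < k := by exact_mod_cast hk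
  have hρ0 : 0 < ρ := by rw [hρ]; positivity
  have hρe : ρ * ((n - k : ℕ) : ℝ) = k := by rw [hρ]; field_simp
  let T : ℕ → ℝ := fun j => (n.choose j : ℝ) * ρ ^ j
  have hstep : ∀ j, T (j + 1) * ((j : ℝ) + 1) = T j * (ρ * ((n - j : ℕ) : ℝ)) := by
    intro j
    have h1 : (n.choose (j + 1) : ℝ) * ((j : ℝ) + 1) = n.choose j * ((n - j : ℕ) : ℝ) := by
      have := Nat.choose_succ_right_eq n j
      exact_mod_cast this
    show (n.choose (j + 1) : ℝ) * ρ ^ (j + 1) * ((j : ℝ) + 1) = n.choose j * ρ ^ j * (ρ * _)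
    calc (n.choose (j + 1) : ℝ) * ρ ^ (j + 1) * ((j : ℝ) + 1)
        = (n.choose (j + 1) : ℝ) * ((j : ℝ) + 1) * ρ ^ (j + 1) := by ring
      _ = _ := by rw [h1]; ring
  have hT0 : ∀ j, 0 ≤ T j := fun j => by positivity
  have hup : ∀ j, j < k → T j ≤ T (j + 1) := by
    intro j hj
    have h1 := hstep j
    have h2 : (j : ℝ) + 1 ≤ ρ * ((n - j : ℕ) : ℝ) := by
      have h3 : ((n - k : ℕ) : ℝ) ≤ ((n - j : ℕ) : ℝ) := by
        have : n - k ≤ n - j := by omega
        exact_mod_cast this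
      have h4 : (j : ℝ) + 1 ≤ k := by exact_mod_cast hj
      calc (j : ℝ) + 1 ≤ k := h4
        _ = ρ * ((n - k : ℕ) : ℝ) := hρe.symm
        _ ≤ _ := mul_le_mul_of_nonneg_left h3 hρ0.le
    have h5 : T j * ((j : ℝ) + 1) ≤ T (j + 1) * ((j : ℝ) + 1) := by
      rw [h1]
      exact mul_le_mul_of_nonneg_left h2 (hT0 j)
    exact le_of_mul_le_mul_right h5 (by positivity)
  have hdown : ∀ j, k ≤ j → T (j + 1) ≤ T j := by
    intro j hj
    have h1 := hstep j
    have h2 : ρ * ((n - j : ℕ) : ℝ) ≤ (j : ℝ) + 1 := by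
      have h3 : ((n - j : ℕ) : ℝ) ≤ ((n - k : ℕ) : ℝ) := by
        have : n - j ≤ n - k := by omega
        exact_mod_cast this
      have h4 : (k : ℝ) ≤ j := by exact_mod_cast hj
      calc ρ * ((n - j : ℕ) : ℝ) ≤ ρ * ((n - k : ℕ) : ℝ) := mul_le_mul_of_nonneg_left h3 hρ0.le
        _ = k := hρe
        _ ≤ (j : ℝ) + 1 := by linarith
    have h5 : T (j + 1) * ((j : ℝ) + 1) ≤ T j * ((j : ℝ) + 1) := by
      rw [h1]
      exact mul_le_mul_of_nonneg_left h2 (hT0 j)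
    exact le_of_mul_le_mul_right h5 (by positivity)
  have hmax : ∀ j, T j ≤ T k := by
    intro j
    rcases le_total j k with h | h
    · have : ∀ i, j ≤ i → i ≤ k → T j ≤ T i := by
        intro i hi
        induction i, hi using Nat.le_induction with
        | base => exact fun _ => le_rfl
        | succ i hi ih => exact fun hik => (ih (by omega)).trans (hup i (by omega))
      exact this k h le_rfl
    · induction j, h using Nat.le_induction with
      | base => exact le_rfl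
      | succ j hj ih => exact (hdown j hj).trans ih
  have hexp : (1 + ρ) ^ n = ∑ j ∈ range (n + 1), T j := by
    rw [add_comm, add_pow]
    refine sum_congr rfl fun j _ => ?_
    show ρ ^ j * 1 ^ (n - j) * (n.choose j : ℝ) = n.choose j * ρ ^ j
    rw [one_pow]
    ring
  rw [hexp]
  calc ∑ j ∈ range (n + 1), T j ≤ ∑ _j ∈ range (n + 1), T k := sum_le_sum fun j _ => hmax j
    _ = (n + 1) * T k := by rw [sum_const, card_range, nsmul_eq_mul]; push_cast; ring
    _ = _ := by show (n + 1) * ((n.choose k : ℝ) * ρ ^ k) = _; ring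

/-- **Exponential sums over the `k`-subsets.** -/
theorem ksub {ι : Type} (p : ℕ) [NeZero p] (s : Finset ι) (g : ι → ZMod p)
    (m : ℕ) (hm : 0 < m) (hs : 4 * m ≤ s.card)
    (hlev : ∀ a, (s.filter fun i => g i = a).card ≤ m) (k : ℕ) (hk : 0 < k) (hkn : k < s.card) :
    ‖∑ B ∈ powersetCard k s, (ZMod.stdAddChar (∑ i ∈ B, g i) : ℂ)‖ ≤
      (s.card + 1) * s.card.choose k *
        exp (-((k : ℝ) * ((s.card - k : ℕ) : ℝ) * s.card / (16 * m ^ 2 * p ^ 2))) := by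
  have hnk : (0 : ℝ) < ((s.card - k : ℕ) : ℝ) := by
    have : 0 < s.card - k := by omega
    exact_mod_cast this
  have hk' : (0 : ℝ) < k := by exact_mod_cast hk
  set n := s.card with hn
  set ρ : ℝ := (k : ℝ) / ((n - k : ℕ) : ℝ) with hρ
  have hρ0 : 0 < ρ := by rw [hρ]; positivity
  have h1 : ∀ B ∈ powersetCard k s, (ZMod.stdAddChar (∑ i ∈ B, g i) : ℂ) =
      ∏ i ∈ B, ZMod.stdAddChar (g i) := fun B _ => char_sum _ _ _
  rw [sum_congr rfl h1]
  have h2 := coeff_bound s (fun i => (ZMod.stdAddChar (g i) : ℂ)) k hkn.le ρ hρ0 _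
    (fun t => prod_bound _ p s g m hm hs hlev ρ hρ0.le t)
  refine h2.trans ?_
  rw [div_le_iff₀ (by positivity)]
  have hn0 : (n : ℝ) = k + ((n - k : ℕ) : ℝ) := by
    rw [Nat.cast_sub hkn.le]
    ring
  have he : 8 * ρ / (1 + ρ) ^ 2 * ((n : ℝ) ^ 3 / (128 * m ^ 2 * p ^ 2)) =
      (k : ℝ) * ((n - k : ℕ) : ℝ) * n / (16 * m ^ 2 * p ^ 2) := by
    have h3 : 1 + ρ = n / ((n - k : ℕ) : ℝ) := by
      rw [hρ, hn0]
      field_simp
      ring
    have hn1 : (0 : ℝ) < n := by rw [hn0]; positivity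
    have hm' : (0 : ℝ) < m := by exact_mod_cast hm
    have hp' : (0 : ℝ) < p := by exact_mod_cast Nat.pos_of_ne_zero (NeZero.ne p)
    rw [h3, hρ]
    field_simp
    ring
  rw [he]
  have hb := binom n k hk hkn
  rw [← hρ] at hb
  calc (1 + ρ) ^ n * exp (-((k : ℝ) * ((n - k : ℕ) : ℝ) * n / (16 * m ^ 2 * p ^ 2)))
      ≤ ((n + 1) * n.choose k * ρ ^ k) *
        exp (-((k : ℝ) * ((n - k : ℕ) : ℝ) * n / (16 * m ^ 2 * p ^ 2))) :=
        mul_le_mul_of_nonneg_right hb (exp_pos _).le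
    _ = _ := by ring

end Pool.Agent.U437.SS
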